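import Mathlib

/-!
# A number `n` with `5 σ̃(n) = n` for the alternating sum-of-divisors function

`σ̃` is the multiplicative function with `σ̃(p ^ r) = p ^ r - p ^ (r - 1) + ... + (-1) ^ r`.
We exhibit a positive integer `n` (with 210 decimal digits and 45 prime factors) such that
`5 * σ̃(n) = n`. It was found by a computer search: start from a power of two, and repeatedly
include the largest prime that still has to divide `n`.
-/

set_option autoImplicit false

namespace Pool.Agent.Results.MP_62401a_nt.FivePerfectH65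

/-- `σ̃(p ^ r) = p ^ r - p ^ (r - 1) + p ^ (r - 2) - ... + (-1) ^ r`, as an integer. -/
def sigmaTildePrimePow (p r : ℕ) : ℤ :=
  ∑ j ∈ Finset.range (r + 1), (-1) ^ j * (p : ℤ) ^ (r - j)

/-- `σ̃(n)`: the product of `σ̃(p ^ r)` over all prime powers `p ^ r` that exactly divide `n`
(so `σ̃(1) = 1`). -/
def sigmaTilde (n : ℕ) : ℤ := n.factorization.prod sigmaTildePrimePow

lemma sigmaTilde_one : sigmaTilde 1 = 1 := by
  simp [sigmaTilde]

lemma sigmaTildePrimePow_zero (p : ℕ) : sigmaTildePrimePow p 0 = 1 := by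
  simp [sigmaTildePrimePow]

lemma sigmaTilde_prime_pow {p : ℕ} (hp : p.Prime) (r : ℕ) :
    sigmaTilde (p ^ r) = sigmaTildePrimePow p r := by
  rw [sigmaTilde, hp.factorization_pow, Finsupp.prod_single_index (sigmaTildePrimePow_zero p)]

lemma sigmaTilde_mul {a b : ℕ} (h : a.Coprime b) :
    sigmaTilde (a * b) = sigmaTilde a * sigmaTilde b := by
  rw [sigmaTilde, Nat.factorization_mul_of_coprime h,
    Finsupp.prod_add_index_of_disjoint (by simpa using h.disjoint_primeFactors)]
  rfl

/-- The value of `σ̃` at a product of powers of distinct primes. -/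
lemma sigmaTilde_list (L : List (ℕ × ℕ)) (hp : ∀ x ∈ L, x.1.Prime)
    (hd : L.Pairwise fun x y => x.1 ≠ y.1) :
    sigmaTilde (L.map fun x => x.1 ^ x.2).prod = (L.map fun x => sigmaTildePrimePow x.1 x.2).prod := by
  induction L with
  | nil => simp [sigmaTilde_one]
  | cons x L ih =>
    rw [List.pairwise_cons] at hd
    rw [List.map_cons, List.map_cons, List.prod_cons, List.prod_cons, sigmaTilde_mul,
      sigmaTilde_prime_pow (hp x (by simp)), ih (fun y hy => hp y (by simp [hy])) hd.2]
    refine Nat.coprime_list_prod_right_iff.2 ?_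
    intro m hm
    obtain ⟨y, hy, rfl⟩ := List.mem_map.1 hm
    refine Nat.Coprime.pow _ _ ?_
    exact (Nat.coprime_primes (hp x (by simp)) (hp y (by simp [hy]))).2 (hd.1 y hy)

/-! ### Recursive form, for the evaluation -/

/-- `alt p (r + 1) = p ^ (r + 1) - alt p r`. -/
def alt (p : ℕ) : ℕ → ℤ
  | 0 => 1
  | r + 1 => ((p ^ (r + 1) : ℕ) : ℤ) - alt p r

lemma sigmaTildePrimePow_eq (p r : ℕ) : sigmaTildePrimePow p r = alt p r := by
  induction r with
  | zero => simp [sigmaTildePrimePow, alt]
  | succ r ih =>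
    rw [alt, ← ih, sigmaTildePrimePow, sigmaTildePrimePow, Finset.sum_range_succ']
    simp only [pow_zero, one_mul, Nat.sub_zero, Nat.add_sub_add_right]
    have : ∑ j ∈ Finset.range (r + 1), (-1 : ℤ) ^ (j + 1) * (p : ℤ) ^ (r - j)
        = - ∑ j ∈ Finset.range (r + 1), (-1) ^ j * (p : ℤ) ^ (r - j) := by
      rw [← Finset.sum_neg_distrib]
      exact Finset.sum_congr rfl fun j _ => by rw [pow_succ]; ring
    rw [this]
    push_cast
    ring

/-! ### A primality test by trial division, with a balanced recursion -/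

/-- `noDiv n k a`: none of `a, a + 1, ..., a + 2 ^ k - 1` divides `n`. -/
def noDiv (n : ℕ) : ℕ → ℕ → Bool
  | 0, a => n % a != 0
  | k + 1, a => noDiv n k a && noDiv n k (a + 2 ^ k)

lemma noDiv_spec (n : ℕ) : ∀ k a : ℕ, noDiv n k a = true →
    ∀ m, a ≤ m → m < a + 2 ^ k → ¬ m ∣ n := by
  intro k
  induction k with
  | zero =>
    intro a h m h1 h2
    have : m = a := by rw [pow_zero] at h2; omega
    subst this
    rw [noDiv, bne_iff_ne] at h
    exact fun hd => h (Nat.mod_eq_zero_of_dvd hd)
  | succ k ih =>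
    intro a h m h1 h2
    rw [noDiv, Bool.and_eq_true] at h
    rcases Nat.lt_or_ge m (a + 2 ^ k) with h3 | h3
    · exact ih a h.1 m h1 h3
    · refine ih (a + 2 ^ k) h.2 m h3 ?_
      rw [pow_succ] at h2
      omega

lemma prime_of_noDiv {n k : ℕ} (h2 : 2 ≤ n) (hk : n < (2 + 2 ^ k) * (2 + 2 ^ k))
    (h : noDiv n k 2 = true) : n.Prime := by
  rw [Nat.prime_def_le_sqrt]
  refine ⟨h2, fun m hm hms => noDiv_spec n k 2 h m hm ?_⟩
  exact lt_of_le_of_lt hms (Nat.sqrt_lt.2 hk)

/-- The prime factorisation of the example. -/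
def primeList : List (ℕ × ℕ) :=
  [(2, 73), (3, 39), (5, 16), (7, 10), (11, 5), (13, 5), (17, 4), (19, 1), (23, 2), (29, 2),
    (31, 1), (37, 5), (41, 1), (43, 2), (59, 1), (61, 2), (67, 1), (71, 1), (79, 1), (83, 2),
    (101, 1), (139, 1), (157, 1), (167, 1), (173, 1), (193, 1), (223, 1), (271, 1), (449, 1),
    (523, 1), (1039, 1), (1163, 1), (1181, 1), (1777, 1), (2269, 1), (3061, 1), (3593, 1),
    (7187, 1), (48847, 1), (116131, 1), (10746341, 1), (25781083, 1), (41540861, 1),
    (42521761, 1), (616318177, 1)]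

lemma prime_of_mem : ∀ x ∈ primeList, x.1.Prime := by
  have h1 : Nat.Prime 10746341 := prime_of_noDiv (k := 12) (by norm_num) (by norm_num) (by decide +kernel)
  have h2 : Nat.Prime 25781083 := prime_of_noDiv (k := 13) (by norm_num) (by norm_num) (by decide +kernel)
  have h3 : Nat.Prime 41540861 := prime_of_noDiv (k := 13) (by norm_num) (by norm_num) (by decide +kernel)
  have h4 : Nat.Prime 42521761 := prime_of_noDiv (k := 13) (by norm_num) (by norm_num) (by decide +kernel)
  have h5 : Nat.Prime 616318177 := prime_of_noDiv (k := 15) (by norm_num) (by norm_num) (by decide +kernel)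
  unfold primeList
  simp only [List.forall_mem_cons, List.not_mem_nil, false_imp_iff, implies_true, and_true, h1, h2,
    h3, h4, h5]
  norm_num

lemma distinct : primeList.Pairwise fun x y => x.1 ≠ y.1 := by
  decide +kernel

lemma identity_alt : 5 * (primeList.map fun x => alt x.1 x.2).prod
    = (((primeList.map fun x => x.1 ^ x.2).prod : ℕ) : ℤ) := by
  decide +kernel

lemma identity : 5 * (primeList.map fun x => sigmaTildePrimePow x.1 x.2).prod
    = (((primeList.map fun x => x.1 ^ x.2).prod : ℕ) : ℤ) := by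
  simp only [sigmaTildePrimePow_eq]
  exact identity_alt

lemma pos : 0 < (primeList.map fun x => x.1 ^ x.2).prod := by
  refine Nat.pos_of_ne_zero fun h => ?_
  rw [List.prod_eq_zero_iff, List.mem_map] at h
  obtain ⟨x, hx, h0⟩ := h
  exact pow_ne_zero _ (prime_of_mem x hx).ne_zero h0

lemma main : ∀ L : List (ℕ × ℕ), (∀ x ∈ L, x.1.Prime) → (L.Pairwise fun x y => x.1 ≠ y.1) →
    0 < (L.map fun x => x.1 ^ x.2).prod →
    5 * (L.map fun x => sigmaTildePrimePow x.1 x.2).prod
      = (((L.map fun x => x.1 ^ x.2).prod : ℕ) : ℤ) →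
    ∃ n : ℕ, 0 < n ∧ 5 * sigmaTilde n = n := by
  intro L h1 h2 h3 h4
  exact ⟨_, h3, by rw [sigmaTilde_list L h1 h2]; exact h4⟩

/-- There is a positive integer `n` with `5 * σ̃(n) = n`: a `σ̃`-`k`-perfect number with
`k = 5 ≥ 4`. -/
theorem result : ∃ n : ℕ, 0 < n ∧ 5 * sigmaTilde n = n :=
  main primeList prime_of_mem distinct pos identity

end Pool.Agent.Results.MP_62401a_nt.FivePerfectH65
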